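import Pool.Agent.H993.Tree.Ram

/-!
The lower bound for families of `(j+1)`-sets that contain the sets spanned by a given tree and no
set that induces a disjoint union of at least two complete graphs.
-/

set_option autoImplicit false
set_option linter.unusedSectionVars false

namespace Pool.Agent.H993.Tree

open Finset

/-- `Z` is spanned by a copy of the tree with `j` edges grown along `p` -/
def Spans {V : Type} [DecidableEq V] (R : V → V → Prop) (p : ∀ j : ℕ, Fin (j + 1)) (j : ℕ)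
    (Z : Finset V) : Prop :=
  ∃ z : Fin (j + 1) → V, Function.Injective z ∧ univ.image z = Z ∧ IsHom R p j z

open Classical in
theorem card_inj (V : Type) [Fintype V] [DecidableEq V] (j : ℕ) :
    (univ.filter fun z : Fin j → V => Function.Injective z).card =
      (Fintype.card V).descFactorial j := by
  have h := Fintype.card_embedding_eq (α := Fin j) (β := V)
  rw [Fintype.card_fin] at h
  rw [← h, ← Fintype.card_subtype]
  exact Fintype.card_congr (Equiv.subtypeInjectiveEquivEmbedding _ _)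

open Classical in
theorem fiber_le (V : Type) [Fintype V] [DecidableEq V] (j : ℕ) (Z : Finset V)
    (hZ : Z.card = j) :
    (univ.filter fun z : Fin j → V => Function.Injective z ∧ univ.image z = Z).card ≤
      j.factorial := by
  have h := Fintype.card_embedding_eq (α := Fin j) (β := Z)
  rw [Fintype.card_fin, Fintype.card_coe, hZ, Nat.descFactorial_self] at h
  rw [← h, ← Fintype.card_subtype]
  refine Fintype.card_le_of_injective (fun z =>
    (⟨fun i => ⟨z.1 i, by
        have h1 := mem_image_of_mem z.1 (mem_univ i)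
        rw [z.2.2] at h1
        exact h1⟩,
      fun a b hab => z.2.1 (congrArg Subtype.val hab)⟩ : Fin j ↪ Z)) ?_
  intro z w hzw
  apply Subtype.ext
  funext i
  have := DFunLike.congr_fun hzw i
  exact congrArg Subtype.val this

theorem analysis (q j : ℕ) (hq : 1 ≤ q) (ε : ℝ) (hε : 0 < ε) :
    ∃ ε' : ℝ, 0 < ε' ∧ ∀ C : ℝ, 0 < C → ∃ n₀ : ℕ, ∀ n : ℕ, n₀ ≤ n → 1 ≤ n ∧ j ≤ n ∧
      0 < (1 / (q : ℝ) - ε') * n - C ∧
      1 / (q : ℝ) ^ j - ε < ((1 / (q : ℝ) - ε') - C / n) ^ j - 1 + (1 - j / n) ^ (j + 1) := by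
  have hq0 : (0 : ℝ) < q := by exact_mod_cast hq
  have hcont : Filter.Tendsto (fun x : ℝ => (1 / (q : ℝ) - x) ^ j) (nhdsWithin 0 (Set.Ioi 0))
      (nhds ((1 / (q : ℝ) - 0) ^ j)) := by
    apply Filter.Tendsto.mono_left _ nhdsWithin_le_nhds
    exact Continuous.tendsto (by fun_prop) 0
  have h1 : ∀ᶠ x in nhdsWithin (0 : ℝ) (Set.Ioi 0), 1 / (q : ℝ) ^ j - ε < (1 / (q : ℝ) - x) ^ j := by
    apply hcont.eventually_const_lt
    rw [sub_zero, one_div_pow]
    linarith
  have h2 : ∀ᶠ x in nhdsWithin (0 : ℝ) (Set.Ioi 0), x < 1 / (q : ℝ) := by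
    have : ∀ᶠ x in nhds (0 : ℝ), x < 1 / (q : ℝ) := eventually_lt_nhds (by positivity)
    exact this.filter_mono nhdsWithin_le_nhds
  obtain ⟨ε', ⟨h3, h4⟩, h5⟩ := ((h1.and h2).and self_mem_nhdsWithin).exists
  refine ⟨ε', h5, fun C hC => ?_⟩
  have hT : Filter.Tendsto (fun n : ℕ => ((1 / (q : ℝ) - ε') - C / n) ^ j - 1 +
      (1 - (j : ℝ) / n) ^ (j + 1)) Filter.atTop
      (nhds (((1 / (q : ℝ) - ε') - 0) ^ j - 1 + (1 - 0) ^ (j + 1))) := by
    have hc := tendsto_const_div_atTop_nhds_zero_nat C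
    have hj := tendsto_const_div_atTop_nhds_zero_nat (j : ℝ)
    exact (((tendsto_const_nhds.sub hc).pow j).sub tendsto_const_nhds).add
      ((tendsto_const_nhds.sub hj).pow (j + 1))
  have h6 : ∀ᶠ n : ℕ in Filter.atTop, 1 / (q : ℝ) ^ j - ε <
      ((1 / (q : ℝ) - ε') - C / n) ^ j - 1 + (1 - (j : ℝ) / n) ^ (j + 1) := by
    apply hT.eventually_const_lt
    rw [sub_zero, sub_zero, one_pow]
    linarith
  have h7 : ∀ᶠ n : ℕ in Filter.atTop, 0 < (1 / (q : ℝ) - ε') * n - C := by
    have hpos : 0 < 1 / (q : ℝ) - ε' := by linarith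
    have := (tendsto_natCast_atTop_atTop (R := ℝ)).const_mul_atTop hpos
    filter_upwards [this.eventually_gt_atTop C] with n hn
    linarith
  obtain ⟨n₀, hn₀⟩ := Filter.eventually_atTop.mp (h6.and h7)
  refine ⟨n₀ + 1 + j, fun n hn => ⟨by omega, by omega, (hn₀ n (by omega)).2,
    (hn₀ n (by omega)).1⟩⟩

open Classical in
theorem base (k j q : ℕ) (hj : 1 ≤ j) (hq : 1 ≤ q) (hk : k ≤ (q + 1) * j)
    (p : ∀ j : ℕ, Fin (j + 1)) (ε : ℝ) (hε : 0 < ε) :
    ∃ n₀ : ℕ, ∀ (V : Type) [Fintype V] [DecidableEq V] (R : V → V → Prop),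
      (∀ ⦃a b⦄, R a b → R b a) → (∀ a, ¬ R a a) → n₀ ≤ Fintype.card V →
      ∀ F : Finset (Finset V), (∀ Y : Finset V, Y.card = k → ∃ Z ∈ F, Z ⊆ Y) →
      (∀ Z ∈ F, Z.card = j + 1 ∧ ¬ Clus R Z) → (∀ Z, Spans R p j Z → Z ∈ F) →
      (1 / (q : ℝ) ^ j - ε) * ((Fintype.card V).choose (j + 1) : ℝ) ≤ F.card := by
  obtain ⟨ε', hε', hA⟩ := analysis q j hq ε hε
  obtain ⟨C, hC, hpairs⟩ := many_pairs q (2 ^ (j + k)) hq ε' hε'
  obtain ⟨n₀, hn₀⟩ := hA C hC
  refine ⟨n₀, fun V _ _ R hR hirr hV F hcov hF hspan => ?_⟩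
  set n := Fintype.card V with hn
  obtain ⟨h1n, hjn, hpos, hfin⟩ := hn₀ n hV
  have hn0 : (0 : ℝ) < n := by exact_mod_cast h1n
  set δ := 1 / (q : ℝ) - ε' with hδ
  have hM : n * (δ * n - C) ≤ tot R := by
    have h := hpairs V R (free_of_cover R hR hirr F k j q hj hk hcov hF) hR hirr univ
    rw [Finset.card_univ, ← hn] at h
    have h2 : tot R = ∑ a : V, ∑ b : V, if R a b then (1 : ℝ) else 0 := rfl
    rw [h2]
    nlinarith
  have hM0 : 0 < tot R := lt_of_lt_of_le (mul_pos hn0 hpos) hM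
  have hhom := card_hom hR hM0 p j hj
  rw [← hn] at hhom
  have h1 : (n : ℝ) ^ (j + 1) * (δ - C / n) ^ j ≤
      ((univ.filter fun z : Fin (j + 1) → V => IsHom R p j z).card : ℝ) := by
    refine le_trans ?_ hhom
    have h2 : δ * n - C ≤ tot R / n := by
      rw [le_div_iff₀ hn0]; linarith
    have h3 : (δ * n - C) ^ j ≤ (tot R / n) ^ j := pow_le_pow_left₀ hpos.le h2 j
    have h4 : (n : ℝ) ^ (j + 1) * (δ - C / n) ^ j = n * (δ * n - C) ^ j := by
      have h5 : δ * n - C = n * (δ - C / n) := by field_simp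
      rw [h5, mul_pow, pow_succ]
      ring
    rw [h4]
    exact mul_le_mul_of_nonneg_left h3 hn0.le
  -- non-injective maps
  set H := univ.filter fun z : Fin (j + 1) → V => IsHom R p j z with hH
  set I := univ.filter fun z : Fin (j + 1) → V => Function.Injective z ∧ IsHom R p j z with hI
  have h2 : (H.card : ℝ) ≤ I.card + ((n : ℝ) ^ (j + 1) - (n.descFactorial (j + 1) : ℝ)) := by
    have h3 : H ⊆ I ∪ univ.filter fun z : Fin (j + 1) → V => ¬ Function.Injective z := by
      intro z hz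
      rw [hH, mem_filter] at hz
      by_cases hi : Function.Injective z
      · exact mem_union_left _ (by rw [hI, mem_filter]; exact ⟨mem_univ _, hi, hz.2⟩)
      · exact mem_union_right _ (by rw [mem_filter]; exact ⟨mem_univ _, hi⟩)
    have h4 := (Finset.card_le_card h3).trans (Finset.card_union_le _ _)
    have h5 := Finset.card_filter_add_card_filter_not (s := (univ : Finset (Fin (j + 1) → V)))
      (fun z => Function.Injective z)
    rw [card_inj V (j + 1), Finset.card_univ, Fintype.card_fun, Fintype.card_fin, ← hn] at h5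
    have h6 : (H.card : ℝ) ≤ I.card +
        ((univ.filter fun z : Fin (j + 1) → V => ¬ Function.Injective z).card : ℝ) := by
      exact_mod_cast h4
    have h7 : (n.descFactorial (j + 1) : ℝ) +
        ((univ.filter fun z : Fin (j + 1) → V => ¬ Function.Injective z).card : ℝ) =
        (n : ℝ) ^ (j + 1) := by
      exact_mod_cast h5
    linarith
  have h3 : I.card ≤ (j + 1).factorial * F.card := by
    have h4 := Finset.card_le_mul_card_image (f := fun z : Fin (j + 1) → V => univ.image z) I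
      (j + 1).factorial ?_
    · refine h4.trans (Nat.mul_le_mul_left _ (Finset.card_le_card ?_))
      intro Z hZ
      rw [mem_image] at hZ
      obtain ⟨z, hz, rfl⟩ := hZ
      rw [hI, mem_filter] at hz
      exact hspan _ ⟨z, hz.2.1, rfl, hz.2.2⟩
    · intro Z hZ
      rw [mem_image] at hZ
      obtain ⟨z, hz, rfl⟩ := hZ
      rw [hI, mem_filter] at hz
      have hc : (univ.image z).card = j + 1 := by
        rw [Finset.card_image_of_injective _ hz.2.1, Finset.card_univ, Fintype.card_fin]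
      refine le_trans (Finset.card_le_card ?_) (fiber_le V (j + 1) (univ.image z) hc)
      intro w hw
      rw [mem_filter, hI, mem_filter] at hw
      rw [mem_filter]
      exact ⟨mem_univ _, hw.1.2.1, hw.2⟩
  have h4 : ((j + 1).factorial : ℝ) * (n.choose (j + 1) : ℝ) = (n.descFactorial (j + 1) : ℝ) := by
    exact_mod_cast (Nat.descFactorial_eq_factorial_mul_choose n (j + 1)).symm
  have h5 : ((n : ℝ) ^ (j + 1)) * (1 - j / n) ^ (j + 1) ≤ (n.descFactorial (j + 1) : ℝ) := by
    have h6 := Nat.pow_sub_le_descFactorial n (j + 1)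
    have h7 : n + 1 - (j + 1) = n - j := by omega
    rw [h7] at h6
    have h8 : (((n - j : ℕ) : ℝ)) ^ (j + 1) ≤ (n.descFactorial (j + 1) : ℝ) := by exact_mod_cast h6
    rw [Nat.cast_sub hjn] at h8
    refine le_trans (le_of_eq ?_) h8
    rw [← mul_pow]
    congr 1
    field_simp
  have h6 : (n.descFactorial (j + 1) : ℝ) ≤ (n : ℝ) ^ (j + 1) := by
    exact_mod_cast Nat.descFactorial_le_pow n (j + 1)
  have h3' : (I.card : ℝ) ≤ ((j + 1).factorial : ℝ) * F.card := by exact_mod_cast h3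
  have hfac : (0 : ℝ) < ((j + 1).factorial : ℝ) := by exact_mod_cast Nat.factorial_pos _
  set c := 1 / (q : ℝ) ^ j - ε with hc
  rcases le_or_gt c 0 with hc0 | hc0
  · exact le_trans (mul_nonpos_of_nonpos_of_nonneg hc0 (Nat.cast_nonneg _)) (Nat.cast_nonneg _)
  have h7 : c * (n.descFactorial (j + 1) : ℝ) ≤ ((j + 1).factorial : ℝ) * F.card := by
    have h8 : c * (n.descFactorial (j + 1) : ℝ) ≤ c * (n : ℝ) ^ (j + 1) :=
      mul_le_mul_of_nonneg_left h6 hc0.le
    have h9 : c * (n : ℝ) ^ (j + 1) ≤ (n : ℝ) ^ (j + 1) *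
        ((δ - C / n) ^ j - 1 + (1 - j / n) ^ (j + 1)) := by
      rw [mul_comm]
      exact mul_le_mul_of_nonneg_left hfin.le (by positivity)
    nlinarith
  rw [← h4] at h7
  have h8 : ((j + 1).factorial : ℝ) * (c * (n.choose (j + 1) : ℝ)) ≤
      ((j + 1).factorial : ℝ) * F.card := by linarith
  exact le_of_mul_le_mul_left h8 hfac

end Pool.Agent.H993.Tree
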