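import Pool.Agent.H993.Tree.Hom

/-!
A symmetric relation on `n` points such that no `q+1` disjoint sets of `s` points are pairwise
unrelated has at least `δ n² - C n` ordered related pairs, for every `δ < 1/q` (Erdős–Stone, in the
minimum degree form of Mathlib).
-/

set_option autoImplicit false
set_option linter.unusedSectionVars false

namespace Pool.Agent.H993.Tree

open Finset SimpleGraph

/-- no complete `q+1`-partite pattern with parts of `s` points in the complement -/
def Free {V : Type} (R : V → V → Prop) (q s : ℕ) : Prop :=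
  ∀ φ : Fin (q + 1) × Fin s → V, Function.Injective φ → ∃ a b, a.1 ≠ b.1 ∧ R (φ a) (φ b)

open Classical in
theorem exists_large_degree (q s : ℕ) (ε : ℝ) (hε : 0 < ε) :
    ∃ N : ℕ, ∀ (V : Type) [DecidableEq V] (R : V → V → Prop), Free R q s →
      (∀ ⦃a b⦄, R a b → R b a) →
      ∀ U : Finset V, N ≤ U.card → ∃ v ∈ U,
        (1 / (q : ℝ) - ε) * U.card - 1 ≤ ∑ u ∈ U, if R v u then (1 : ℝ) else 0 := by
  obtain ⟨N, hN⟩ := Filter.eventually_atTop.mp
    (eventually_completeEquipartiteGraph_isContained_of_minDegree hε q s)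
  refine ⟨N + 1, fun V _ R hfree hR U hU => ?_⟩
  set m := U.card with hm
  let e := U.equivFin
  let ι : Fin m → V := fun i => (e.symm i : V)
  have hι : Function.Injective ι := Subtype.val_injective.comp e.symm.injective
  have hιU : ∀ i, ι i ∈ U := fun i => (e.symm i).2
  let H : SimpleGraph (Fin m) :=
    { Adj := fun i j => i ≠ j ∧ ¬ R (ι i) (ι j)
      symm := ⟨fun i j h => ⟨h.1.symm, fun h' => h.2 (hR h')⟩⟩
      loopless := ⟨fun i h => h.1 rfl⟩ }
  have hlt : (H.minDegree : ℝ) < (1 - 1 / (q : ℝ) + ε) * m := by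
    by_contra hcon
    push Not at hcon
    obtain ⟨f⟩ := hN m (by omega) (G := H) hcon
    obtain ⟨a, b, hab, hRab⟩ := hfree (fun x => ι (f x)) (hι.comp f.injective)
    have hadj : H.Adj (f a) (f b) := f.toHom.map_adj (by
      rw [completeEquipartiteGraph_adj]; exact hab)
    exact hadj.2 hRab
  have : Nonempty (Fin m) := ⟨⟨0, by omega⟩⟩
  obtain ⟨i, hi⟩ := H.exists_minimal_degree_vertex
  refine ⟨ι i, hιU i, ?_⟩
  have h1 : (m : ℝ) ≤ (H.degree i : ℝ) + 1 + ∑ j : Fin m, if R (ι i) (ι j) then (1 : ℝ) else 0 := by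
    have h2 : (univ : Finset (Fin m)) ⊆ (H.neighborFinset i ∪ {i}) ∪
        univ.filter fun j => R (ι i) (ι j) := by
      intro j _
      by_cases hRj : R (ι i) (ι j)
      · exact mem_union_right _ (by rw [mem_filter]; exact ⟨mem_univ _, hRj⟩)
      · apply mem_union_left
        by_cases hij : j = i
        · exact mem_union_right _ (by rw [mem_singleton]; exact hij)
        · apply mem_union_left
          rw [mem_neighborFinset]
          exact ⟨fun h => hij h.symm, hRj⟩
    have h3 := Finset.card_le_card h2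
    have h4 := (Finset.card_union_le (H.neighborFinset i ∪ {i})
      (univ.filter fun j => R (ι i) (ι j)))
    have h5 := Finset.card_union_le (H.neighborFinset i) {i}
    rw [Finset.card_univ, Fintype.card_fin] at h3
    rw [card_neighborFinset_eq_degree, card_singleton] at h5
    have h6 : m ≤ H.degree i + 1 + (univ.filter fun j => R (ι i) (ι j)).card := by omega
    have h7 : ((univ.filter fun j => R (ι i) (ι j)).card : ℝ) =
        ∑ j : Fin m, if R (ι i) (ι j) then (1 : ℝ) else 0 := by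
      rw [Finset.sum_boole]
    rw [← h7]
    exact_mod_cast h6
  have h8 : ∑ j : Fin m, (if R (ι i) (ι j) then (1 : ℝ) else 0) =
      ∑ u ∈ U, if R (ι i) u then (1 : ℝ) else 0 := by
    rw [← Finset.sum_coe_sort U]
    exact Fintype.sum_equiv e.symm _ _ (fun j => rfl)
  rw [h8] at h1
  rw [hi] at hlt
  nlinarith

open Classical in
theorem pairs_erase {V : Type} [DecidableEq V] (R : V → V → Prop)
    (hR : ∀ ⦃a b⦄, R a b → R b a) (hirr : ∀ a, ¬ R a a) (U : Finset V) (v : V) (hv : v ∈ U) :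
    ∑ a ∈ U, ∑ b ∈ U, (if R a b then (1 : ℝ) else 0) =
      (∑ a ∈ U.erase v, ∑ b ∈ U.erase v, if R a b then (1 : ℝ) else 0) +
        2 * ∑ u ∈ U, if R v u then (1 : ℝ) else 0 := by
  have h1 : ∀ f : V → ℝ, ∑ a ∈ U, f a = f v + ∑ a ∈ U.erase v, f a := fun f =>
    (Finset.add_sum_erase U f hv).symm
  rw [h1 (fun a => ∑ b ∈ U, if R a b then (1 : ℝ) else 0)]
  have h2 : ∑ a ∈ U.erase v, ∑ b ∈ U, (if R a b then (1 : ℝ) else 0) =
      ∑ a ∈ U.erase v, ((if R a v then (1 : ℝ) else 0) +
        ∑ b ∈ U.erase v, if R a b then (1 : ℝ) else 0) :=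
    Finset.sum_congr rfl fun a _ => h1 (fun b => if R a b then (1 : ℝ) else 0)
  rw [h2, Finset.sum_add_distrib]
  have h3 : ∑ a ∈ U.erase v, (if R a v then (1 : ℝ) else 0) =
      ∑ u ∈ U, if R v u then (1 : ℝ) else 0 := by
    rw [h1 (fun u => if R v u then (1 : ℝ) else 0), if_neg (hirr v), zero_add]
    refine Finset.sum_congr rfl fun a _ => ?_
    have : R a v ↔ R v a := ⟨fun h => hR h, fun h => hR h⟩
    simp [this]
  rw [h3]
  ring

open Classical in
theorem many_pairs (q s : ℕ) (hq : 1 ≤ q) (ε : ℝ) (hε : 0 < ε) :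
    ∃ C : ℝ, 0 < C ∧ ∀ (V : Type) [DecidableEq V] (R : V → V → Prop), Free R q s →
      (∀ ⦃a b⦄, R a b → R b a) → (∀ a, ¬ R a a) →
      ∀ U : Finset V, (1 / (q : ℝ) - ε) * (U.card : ℝ) ^ 2 - C * U.card ≤
        ∑ a ∈ U, ∑ b ∈ U, if R a b then (1 : ℝ) else 0 := by
  obtain ⟨N, hN⟩ := exists_large_degree q s ε hε
  have hq1 : 1 / (q : ℝ) ≤ 1 := by
    rw [div_le_one (by exact_mod_cast hq)]
    exact_mod_cast hq
  refine ⟨N + 2 + |1 / (q : ℝ) - ε|, by positivity, fun V _ R hfree hR hirr => ?_⟩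
  set δ := 1 / (q : ℝ) - ε with hδ
  have hδ1 : δ ≤ 1 := by rw [hδ]; linarith
  intro U
  induction hm : U.card generalizing U with
  | zero =>
    rw [Finset.card_eq_zero] at hm
    subst hm
    simp
  | succ m ih =>
    rcases Nat.lt_or_ge (m + 1) N with h | h
    · have h0 : (0 : ℝ) ≤ ∑ a ∈ U, ∑ b ∈ U, if R a b then (1 : ℝ) else 0 :=
        Finset.sum_nonneg fun a _ => Finset.sum_nonneg fun b _ => by split_ifs <;> norm_num
      refine le_trans ?_ h0
      have h1 : ((m + 1 : ℕ) : ℝ) ≤ N := by exact_mod_cast h.le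
      have h2 : (0 : ℝ) ≤ ((m + 1 : ℕ) : ℝ) := Nat.cast_nonneg _
      have h3 : δ * ((m + 1 : ℕ) : ℝ) ^ 2 ≤ ((m + 1 : ℕ) : ℝ) * N := by
        nlinarith [mul_nonneg h2 h2, mul_le_mul_of_nonneg_left h1 h2]
      have h4 := abs_nonneg δ
      nlinarith
    · obtain ⟨v, hv, hdeg⟩ := hN V R hfree hR U (by omega)
      rw [pairs_erase R hR hirr U v hv]
      have h1 := ih (U.erase v) (by rw [Finset.card_erase_of_mem hv]; omega)
      rw [hm] at hdeg
      have h4 := neg_abs_le δ
      push_cast at h1 hdeg ⊢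
      nlinarith

end Pool.Agent.H993.Tree
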