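import Pool.Agent.H993.Tree.Base

/-! Every finite tree has a growth sequence. -/

set_option autoImplicit false
set_option linter.unusedSectionVars false

namespace Pool.Agent.H993.Tree

open Finset SimpleGraph

theorem isHom_congr {V : Type} (R : V → V → Prop) (p p' : ∀ j : ℕ, Fin (j + 1)) (j : ℕ)
    (h : ∀ i < j, p i = p' i) (z : Fin (j + 1) → V) : IsHom R p j z ↔ IsHom R p' j z := by
  induction j with
  | zero => simp [IsHom]
  | succ j ih =>
    simp only [IsHom]
    rw [ih (fun i hi => h i (by omega)), h j (by omega)]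

open Classical in
theorem exists_growth (j : ℕ) : ∀ (W : Type) [Fintype W] (S : SimpleGraph W), S.IsTree →
    Fintype.card W = j + 1 → ∃ (p : ∀ j : ℕ, Fin (j + 1)) (e : Fin (j + 1) ≃ W),
      ∀ (V : Type) (R : V → V → Prop), (∀ ⦃a b⦄, R a b → R b a) → ∀ z : Fin (j + 1) → V,
        IsHom R p j z → ∀ a b, S.Adj (e a) (e b) → R (z a) (z b) := by
  induction j with
  | zero =>
    intro W _ S hS hW
    have e : Fin (0 + 1) ≃ W := (Fintype.equivFinOfCardEq hW).symm
    refine ⟨fun j => 0, e, ?_⟩
    intro V R _ z _ a b hab
    have : a = b := Subsingleton.elim (α := Fin 1) a b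
    rw [this] at hab
    exact absurd hab (S.irrefl)
  | succ j ih =>
    intro W _ S hS hW
    have hnt : Nontrivial W := by
      rw [← Fintype.one_lt_card_iff_nontrivial]; omega
    obtain ⟨v, hv⟩ := hS.exists_vert_degree_one_of_nontrivial
    have hconn := hS.connected.induce_compl_singleton_of_degree_eq_one hv
    have hac := hS.isAcyclic.induce ({v}ᶜ : Set W)
    have htree : (S.induce ({v}ᶜ : Set W)).IsTree := ⟨hconn, hac⟩
    have hcard : Fintype.card (({v}ᶜ : Set W) : Type) = j + 1 := by
      rw [Fintype.card_compl_set, hW]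
      simp
    obtain ⟨p', e', hp'⟩ := ih (({v}ᶜ : Set W) : Type) _ htree hcard
    rw [degree_eq_one_iff_existsUnique_adj] at hv
    obtain ⟨u, hu, huniq⟩ := hv
    have huv : u ∈ ({v}ᶜ : Set W) := by
      rw [Set.mem_compl_iff, Set.mem_singleton_iff]
      intro h
      rw [h] at hu
      exact S.irrefl hu
    let p : ∀ j : ℕ, Fin (j + 1) := Function.update p' j (e'.symm ⟨u, huv⟩)
    have hpj : p j = e'.symm ⟨u, huv⟩ := Function.update_self _ _ _
    have hinj : Function.Injective (Fin.cons v (fun i => (e' i : W)) : Fin (j + 2) → W) := by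
      rw [Fin.cons_injective_iff]
      refine ⟨?_, Subtype.val_injective.comp e'.injective⟩
      rintro ⟨i, hi⟩
      exact (e' i).2 (by rw [Set.mem_singleton_iff]; exact hi)
    have hbij : Function.Bijective (Fin.cons v (fun i => (e' i : W)) : Fin (j + 2) → W) := by
      rw [Fintype.bijective_iff_injective_and_card]
      exact ⟨hinj, by rw [Fintype.card_fin, hW]⟩
    refine ⟨p, Equiv.ofBijective _ hbij, ?_⟩
    intro V R hR z hz a b hab
    obtain ⟨hz1, hz2⟩ := hz
    rw [isHom_congr R p p' j (fun i hi => Function.update_of_ne (by omega) _ _)] at hz1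
    simp only [Equiv.ofBijective_apply] at hab
    revert hab
    refine Fin.cases ?_ (fun a' => ?_) a <;> refine Fin.cases ?_ (fun b' => ?_) b
    · intro hab
      exact absurd hab (S.irrefl)
    · intro hab
      simp only [Fin.cons_zero, Fin.cons_succ] at hab
      have h1 := huniq _ hab
      have h2 : b' = p j := by
        rw [hpj]
        exact (e'.symm_apply_eq.mpr (Subtype.ext h1.symm)).symm
      apply hR
      rw [h2]
      exact hz2
    · intro hab
      simp only [Fin.cons_zero, Fin.cons_succ] at hab
      have h1 := huniq _ hab.symm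
      have h2 : a' = p j := by
        rw [hpj]
        exact (e'.symm_apply_eq.mpr (Subtype.ext h1.symm)).symm
      rw [h2]
      exact hz2
    · intro hab
      simp only [Fin.cons_succ] at hab
      exact hp' V R hR (Fin.tail z) hz1 a' b' hab

end Pool.Agent.H993.Tree
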