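import Mathlib

/-!
Sidorenko's inequality for trees: a graph with `M` ordered adjacent pairs on `n` vertices has at
least `n (M/n)^j` homomorphisms from a given tree with `j` edges.  The tree is given by a growth
sequence `p`: the vertex number `j+1` is joined to the vertex at position `p j` of the list of the
earlier ones (the newest vertex is at position `0`).
-/

set_option autoImplicit false
set_option linter.unusedSectionVars false

namespace Pool.Agent.H993.Tree

open Finset

/-- `z` is a homomorphism to the relation `R` of the tree with `j` edges grown along `p`. -/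
def IsHom {V : Type*} (R : V → V → Prop) (p : ∀ j : ℕ, Fin (j + 1)) :
    ∀ j : ℕ, (Fin (j + 1) → V) → Prop
  | 0, _ => True
  | j + 1, z => IsHom R p j (Fin.tail z) ∧ R (Fin.tail z (p j)) (z 0)

section

variable {V : Type*} [Fintype V] [DecidableEq V] (R : V → V → Prop) [DecidableRel R]

/-- the degree -/
noncomputable def dg (v : V) : ℝ := ∑ u, if R v u then (1 : ℝ) else 0

/-- the number of ordered pairs -/
noncomputable def tot : ℝ := ∑ v, dg R v

/-- transition weights -/
noncomputable def tr (u y : V) : ℝ :=
  if dg R u = 0 then (if y = u then 1 else 0) else (if R u y then 1 / dg R u else 0)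

/-- the weight of the walk indexed by the tree -/
noncomputable def wt (p : ∀ j : ℕ, Fin (j + 1)) : ∀ j : ℕ, (Fin (j + 1) → V) → ℝ
  | 0, z => dg R (z 0) / tot R
  | j + 1, z => wt p j (Fin.tail z) * tr R (Fin.tail z (p j)) (z 0)

variable {R}

theorem dg_nonneg (v : V) : 0 ≤ dg R v :=
  Finset.sum_nonneg fun u _ => by split_ifs <;> norm_num

theorem tot_nonneg : 0 ≤ tot R := Finset.sum_nonneg fun v _ => dg_nonneg v

theorem tr_nonneg (u y : V) : 0 ≤ tr R u y := by
  unfold tr
  have := dg_nonneg (R := R) u
  split_ifs <;> positivity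

theorem sum_tr (u : V) : ∑ y, tr R u y = 1 := by
  unfold tr
  by_cases h : dg R u = 0
  · simp [h]
  · simp only [h, if_false]
    have h1 : ∀ y, (if R u y then 1 / dg R u else 0) = (1 / dg R u) * (if R u y then (1 : ℝ) else 0) := by
      intro y; split_ifs <;> simp
    rw [Finset.sum_congr rfl fun y _ => h1 y, ← Finset.mul_sum]
    change (1 / dg R u) * dg R u = 1
    field_simp

theorem dg_mul_tr (u y : V) : dg R u * tr R u y = if R u y then 1 else 0 := by
  unfold tr
  by_cases h : dg R u = 0
  · simp only [h, if_true, zero_mul]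
    have h0 : ∀ y ∈ (univ : Finset V), (if R u y then (1 : ℝ) else 0) = 0 := by
      rw [← Finset.sum_eq_zero_iff_of_nonneg]
      · exact h
      · intro i _; split_ifs <;> norm_num
    exact (h0 y (mem_univ y)).symm
  · simp only [h, if_false]
    split_ifs
    · field_simp
    · simp

theorem wt_nonneg (p : ∀ j : ℕ, Fin (j + 1)) (j : ℕ) (z : Fin (j + 1) → V) : 0 ≤ wt R p j z := by
  induction j with
  | zero => exact div_nonneg (dg_nonneg _) tot_nonneg
  | succ j ih => exact mul_nonneg (ih _) (tr_nonneg _ _)

theorem sum_cons {j : ℕ} (f : (Fin (j + 2) → V) → ℝ) :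
    ∑ z, f z = ∑ x : Fin (j + 1) → V, ∑ y : V, f (Fin.cons y x) := by
  rw [← Finset.sum_product', Finset.univ_product_univ]
  refine (Fintype.sum_equiv ((Equiv.prodComm _ _).trans (Fin.consEquiv fun _ : Fin (j + 2) => V))
    _ _ ?_).symm
  rintro ⟨x, y⟩
  rfl

theorem wt_cons (p : ∀ j : ℕ, Fin (j + 1)) (j : ℕ) (x : Fin (j + 1) → V) (y : V) :
    wt R p (j + 1) (Fin.cons y x) = wt R p j x * tr R (x (p j)) y := by
  simp [wt]

theorem isHom_cons (p : ∀ j : ℕ, Fin (j + 1)) (j : ℕ) (x : Fin (j + 1) → V) (y : V) :
    IsHom R p (j + 1) (Fin.cons y x) ↔ IsHom R p j x ∧ R (x (p j)) y := by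
  simp [IsHom]

theorem marginal (hR : ∀ ⦃a b⦄, R a b → R b a) (p : ∀ j : ℕ, Fin (j + 1)) (j : ℕ) (i : Fin (j + 1))
    (f : V → ℝ) : ∑ z, wt R p j z * f (z i) = ∑ v, dg R v / tot R * f v := by
  induction j generalizing f with
  | zero =>
    have hi : i = 0 := Subsingleton.elim (α := Fin 1) i 0
    subst hi
    refine Fintype.sum_equiv (Equiv.funUnique (Fin 1) V) _ _ ?_
    intro z
    simp [wt]
  | succ j ih =>
    rw [sum_cons]
    simp only [wt_cons]
    refine Fin.cases ?_ (fun i' => ?_) i
    · simp only [Fin.cons_zero]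
      have h1 : ∀ x : Fin (j + 1) → V, ∑ y, wt R p j x * tr R (x (p j)) y * f y =
          wt R p j x * (∑ y, tr R (x (p j)) y * f y) := by
        intro x
        rw [Finset.mul_sum]
        exact Finset.sum_congr rfl fun y _ => by ring
      rw [Finset.sum_congr rfl fun x _ => h1 x]
      rw [ih (p j) (fun u => ∑ y, tr R u y * f y)]
      have h2 : ∀ u, dg R u / tot R * (∑ y, tr R u y * f y) =
          ∑ y, (if R u y then (1 : ℝ) else 0) * (f y / tot R) := by
        intro u
        rw [Finset.mul_sum]
        refine Finset.sum_congr rfl fun y _ => ?_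
        rw [← dg_mul_tr]
        ring
      rw [Finset.sum_congr rfl fun u _ => h2 u, Finset.sum_comm]
      refine Finset.sum_congr rfl fun y _ => ?_
      rw [← Finset.sum_mul]
      have h3 : ∑ u, (if R u y then (1 : ℝ) else 0) = dg R y := by
        unfold dg
        refine Finset.sum_congr rfl fun u _ => ?_
        have : R u y ↔ R y u := ⟨fun h => hR h, fun h => hR h⟩
        simp [this]
      rw [h3]
      ring
    · simp only [Fin.cons_succ]
      have h1 : ∀ x : Fin (j + 1) → V, ∑ y, wt R p j x * tr R (x (p j)) y * f (x i') =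
          wt R p j x * f (x i') := by
        intro x
        rw [← Finset.sum_mul, ← Finset.mul_sum, sum_tr, mul_one]
      rw [Finset.sum_congr rfl fun x _ => h1 x]
      exact ih i' f

theorem sum_wt (hR : ∀ ⦃a b⦄, R a b → R b a) (hM : 0 < tot R) (p : ∀ j : ℕ, Fin (j + 1)) (j : ℕ) :
    ∑ z, wt R p j z = 1 := by
  have h := marginal hR p j 0 (fun _ => 1)
  simp only [mul_one] at h
  rw [h, ← Finset.sum_div]
  exact div_self hM.ne'

theorem tr_log (u : V) : ∑ y, tr R u y * Real.log (tr R u y) = - Real.log (dg R u) := by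
  unfold tr
  by_cases h : dg R u = 0
  · simp [h]
  · simp only [h, if_false]
    have h1 : ∀ y, (if R u y then 1 / dg R u else 0) * Real.log (if R u y then 1 / dg R u else 0) =
        (if R u y then (1 : ℝ) else 0) * ((1 / dg R u) * (- Real.log (dg R u))) := by
      intro y
      split_ifs
      · rw [one_div, Real.log_inv]; ring
      · simp
    rw [Finset.sum_congr rfl fun y _ => h1 y, ← Finset.sum_mul]
    change dg R u * _ = _
    field_simp

theorem entropy (hR : ∀ ⦃a b⦄, R a b → R b a) (hM : 0 < tot R) (p : ∀ j : ℕ, Fin (j + 1)) (j : ℕ) :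
    ∑ z, wt R p j z * Real.log (wt R p j z) =
      - Real.log (tot R) + (1 - j) * ∑ v, dg R v / tot R * Real.log (dg R v) := by
  induction j with
  | zero =>
    have h1 : ∑ z : Fin 1 → V, wt R p 0 z * Real.log (wt R p 0 z) =
        ∑ v, (dg R v / tot R) * Real.log (dg R v / tot R) := by
      refine Fintype.sum_equiv (Equiv.funUnique (Fin 1) V) _ _ ?_
      intro z
      simp [wt]
    rw [h1]
    have h2 : ∀ v, (dg R v / tot R) * Real.log (dg R v / tot R) =
        dg R v / tot R * Real.log (dg R v) - (dg R v / tot R) * Real.log (tot R) := by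
      intro v
      by_cases h : dg R v = 0
      · simp [h]
      · rw [Real.log_div h hM.ne']; ring
    rw [Finset.sum_congr rfl fun v _ => h2 v, Finset.sum_sub_distrib, ← Finset.sum_mul,
      ← Finset.sum_div]
    have h3 : (∑ v, dg R v) / tot R = 1 := div_self hM.ne'
    rw [h3]
    push_cast
    ring
  | succ j ih =>
    rw [sum_cons]
    simp only [wt_cons]
    have h1 : ∀ x : Fin (j + 1) → V, ∑ y, wt R p j x * tr R (x (p j)) y *
        Real.log (wt R p j x * tr R (x (p j)) y) =
        wt R p j x * Real.log (wt R p j x) - wt R p j x * Real.log (dg R (x (p j))) := by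
      intro x
      have h2 : ∀ y, wt R p j x * tr R (x (p j)) y * Real.log (wt R p j x * tr R (x (p j)) y) =
          wt R p j x * Real.log (wt R p j x) * tr R (x (p j)) y +
          wt R p j x * (tr R (x (p j)) y * Real.log (tr R (x (p j)) y)) := by
        intro y
        by_cases h : wt R p j x = 0
        · simp [h]
        by_cases h' : tr R (x (p j)) y = 0
        · simp [h']
        rw [Real.log_mul h h']; ring
      rw [Finset.sum_congr rfl fun y _ => h2 y, Finset.sum_add_distrib, ← Finset.mul_sum,
        ← Finset.mul_sum, sum_tr, tr_log]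
      ring
    rw [Finset.sum_congr rfl fun x _ => h1 x, Finset.sum_sub_distrib, ih,
      marginal hR p j (p j) (fun v => Real.log (dg R v))]
    push_cast
    ring

theorem isHom_of_wt_ne_zero (hR : ∀ ⦃a b⦄, R a b → R b a) (p : ∀ j : ℕ, Fin (j + 1)) (j : ℕ)
    (z : Fin (j + 1) → V) (h : wt R p j z ≠ 0) : IsHom R p j z ∧ ∀ i, dg R (z i) ≠ 0 := by
  induction j with
  | zero =>
    refine ⟨trivial, fun i => ?_⟩
    have hi : i = 0 := Subsingleton.elim (α := Fin 1) i 0
    subst hi
    intro h0
    exact h (by simp [wt, h0])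
  | succ j ih =>
    have hw : wt R p j (Fin.tail z) ≠ 0 := left_ne_zero_of_mul h
    have ht : tr R (Fin.tail z (p j)) (z 0) ≠ 0 := right_ne_zero_of_mul h
    obtain ⟨h1, h2⟩ := ih _ hw
    have h3 : R (Fin.tail z (p j)) (z 0) := by
      by_contra h4
      apply ht
      unfold tr
      rw [if_neg (h2 (p j)), if_neg h4]
    refine ⟨⟨h1, h3⟩, fun i => ?_⟩
    refine Fin.cases ?_ (fun i' => h2 i') i
    intro h0
    have h5 : ∀ y ∈ (univ : Finset V), (if R (z 0) y then (1 : ℝ) else 0) = 0 := by
      rw [← Finset.sum_eq_zero_iff_of_nonneg]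
      · exact h0
      · intro i _; split_ifs <;> norm_num
    have h6 := h5 (Fin.tail z (p j)) (mem_univ _)
    rw [if_pos (hR h3)] at h6
    exact one_ne_zero h6

open Classical in
/-- **Sidorenko's inequality for trees.** -/
theorem card_hom (hR : ∀ ⦃a b⦄, R a b → R b a) (hM : 0 < tot R) (p : ∀ j : ℕ, Fin (j + 1)) (j : ℕ)
    (hj : 1 ≤ j) :
    (Fintype.card V : ℝ) * (tot R / Fintype.card V) ^ j ≤
      ((univ.filter fun z : Fin (j + 1) → V => IsHom R p j z).card : ℝ) := by
  set S := univ.filter fun z : Fin (j + 1) → V => wt R p j z ≠ 0 with hS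
  have hV : Nonempty V := by
    by_contra h
    rw [not_nonempty_iff] at h
    simp [tot] at hM
  have hn : (0 : ℝ) < Fintype.card V := by exact_mod_cast Fintype.card_pos
  have hsub : S ⊆ univ.filter fun z : Fin (j + 1) → V => IsHom R p j z := by
    intro z hz
    rw [mem_filter] at hz ⊢
    exact ⟨mem_univ _, (isHom_of_wt_ne_zero hR p j z hz.2).1⟩
  have hsum : ∑ z ∈ S, wt R p j z = 1 := by
    rw [← sum_wt hR hM p j, hS, Finset.sum_filter_ne_zero]
  have hSne : S.Nonempty := by
    by_contra h
    rw [not_nonempty_iff_eq_empty] at h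
    rw [h, Finset.sum_empty] at hsum
    exact zero_ne_one hsum
  have hK : (0 : ℝ) < S.card := by exact_mod_cast hSne.card_pos
  -- entropy is at most log |S|
  have hent : - ∑ z, wt R p j z * Real.log (wt R p j z) ≤ Real.log S.card := by
    have h1 : ∑ z, wt R p j z * Real.log (wt R p j z) =
        ∑ z ∈ S, wt R p j z * Real.log (wt R p j z) := by
      symm
      apply Finset.sum_subset (subset_univ _)
      intro z _ hz
      rw [hS, mem_filter] at hz
      push Not at hz
      rw [hz (mem_univ _), zero_mul]
    rw [h1]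
    have h2 : ∀ z ∈ S, wt R p j z * (- Real.log (wt R p j z)) - wt R p j z * Real.log S.card ≤
        1 / S.card - wt R p j z := by
      intro z hz
      rw [hS, mem_filter] at hz
      have hw : 0 < wt R p j z := lt_of_le_of_ne (wt_nonneg p j z) (Ne.symm hz.2)
      have h3 := Real.log_le_sub_one_of_pos (x := 1 / (wt R p j z * S.card)) (by positivity)
      rw [one_div, Real.log_inv, Real.log_mul hw.ne' hK.ne'] at h3
      have h4 := mul_le_mul_of_nonneg_left h3 hw.le
      have h5 : wt R p j z * ((wt R p j z * S.card)⁻¹ - 1) = 1 / S.card - wt R p j z := by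
        field_simp
      rw [h5] at h4
      linarith
    have h6 := Finset.sum_le_sum h2
    rw [Finset.sum_sub_distrib, Finset.sum_sub_distrib, ← Finset.sum_mul, hsum] at h6
    simp only [Finset.sum_const, nsmul_eq_mul, mul_neg, Finset.sum_neg_distrib] at h6
    have h7 : (S.card : ℝ) * (1 / S.card) = 1 := by field_simp
    rw [h7] at h6
    linarith
  -- convexity
  have hL : Real.log (tot R / Fintype.card V) ≤ ∑ v, dg R v / tot R * Real.log (dg R v) := by
    have h2 : ∀ v ∈ (univ : Finset V), dg R v / tot R * Real.log (tot R / Fintype.card V) -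
        dg R v / tot R * Real.log (dg R v) ≤ 1 / Fintype.card V - dg R v / tot R := by
      intro v _
      by_cases h : dg R v = 0
      · simp [h]
      have hd : 0 < dg R v := lt_of_le_of_ne (dg_nonneg v) (Ne.symm h)
      have h3 := Real.log_le_sub_one_of_pos (x := (tot R / Fintype.card V) / dg R v) (by positivity)
      rw [Real.log_div (by positivity) hd.ne'] at h3
      have h4 := mul_le_mul_of_nonneg_left h3 (le_of_lt (div_pos hd hM))
      have h5 : dg R v / tot R * ((tot R / Fintype.card V) / dg R v - 1) =
          1 / Fintype.card V - dg R v / tot R := by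
        field_simp
      rw [h5] at h4
      linarith
    have h6 := Finset.sum_le_sum h2
    rw [Finset.sum_sub_distrib, Finset.sum_sub_distrib, ← Finset.sum_mul, ← Finset.sum_div] at h6
    have h3 : (∑ v, dg R v) / tot R = 1 := div_self hM.ne'
    rw [h3] at h6
    simp only [Finset.sum_const, nsmul_eq_mul, Finset.card_univ] at h6
    have h7 : (Fintype.card V : ℝ) * (1 / Fintype.card V) = 1 := by field_simp
    rw [h7] at h6
    linarith
  rw [entropy hR hM p j] at hent
  have hj' : (0 : ℝ) ≤ (j : ℝ) - 1 := by
    have : (1 : ℝ) ≤ j := by exact_mod_cast hj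
    linarith
  have h8 : Real.log (tot R) + ((j : ℝ) - 1) * Real.log (tot R / Fintype.card V) ≤
      Real.log S.card := by
    have := mul_le_mul_of_nonneg_left hL hj'
    linarith
  have h9 : Real.log (Fintype.card V * (tot R / Fintype.card V) ^ j) =
      Real.log (tot R) + ((j : ℝ) - 1) * Real.log (tot R / Fintype.card V) := by
    rw [Real.log_mul hn.ne' (by positivity), Real.log_pow, Real.log_div hM.ne' hn.ne']
    ring
  have h10 : (Fintype.card V : ℝ) * (tot R / Fintype.card V) ^ j ≤ S.card := by
    rw [← Real.log_le_log_iff (by positivity) hK, h9]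
    exact h8
  refine h10.trans ?_
  exact_mod_cast Finset.card_le_card hsub

end

end Pool.Agent.H993.Tree
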