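import Pool.Agent.H993.Tree.Dense

/-! Ramsey's theorem for two colours, and the excluded pattern of a covering family. -/

set_option autoImplicit false
set_option linter.unusedSectionVars false

namespace Pool.Agent.H993.Tree

open Finset

open Classical in
theorem ramsey {V : Type} [DecidableEq V] (R : V → V → Prop) (hR : ∀ ⦃a b⦄, R a b → R b a) :
    ∀ (m a b : ℕ), a + b = m → ∀ U : Finset V, 2 ^ m ≤ U.card →
      (∃ A ⊆ U, A.card = a ∧ ∀ x ∈ A, ∀ y ∈ A, x ≠ y → R x y) ∨
      (∃ B ⊆ U, B.card = b ∧ ∀ x ∈ B, ∀ y ∈ B, x ≠ y → ¬ R x y) := by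
  intro m
  induction m with
  | zero =>
    intro a b hab U _
    left
    exact ⟨∅, empty_subset _, by rw [card_empty]; omega, by simp⟩
  | succ m ih =>
    intro a b hab U hU
    rcases Nat.eq_zero_or_pos a with ha | ha
    · left
      exact ⟨∅, empty_subset _, by rw [card_empty]; omega, by simp⟩
    rcases Nat.eq_zero_or_pos b with hb | hb
    · right
      exact ⟨∅, empty_subset _, by rw [card_empty]; omega, by simp⟩
    have hUne : U.Nonempty := by
      rw [← card_pos]
      have : 0 < 2 ^ (m + 1) := by positivity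
      omega
    obtain ⟨v, hv⟩ := hUne
    set N := (U.erase v).filter fun x => R v x with hN
    set M := (U.erase v).filter fun x => ¬ R v x with hM
    have hsum : N.card + M.card = U.card - 1 := by
      rw [← card_erase_of_mem hv]
      exact Finset.card_filter_add_card_filter_not _
    have hpow : 2 ^ (m + 1) = 2 * 2 ^ m := by ring
    rcases Nat.lt_or_ge N.card (2 ^ m) with h | h
    · have hM' : 2 ^ m ≤ M.card := by omega
      rcases ih a (b - 1) (by omega) M hM' with ⟨A, hA1, hA2, hA3⟩ | ⟨B, hB1, hB2, hB3⟩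
      · left
        exact ⟨A, hA1.trans ((filter_subset _ _).trans (erase_subset _ _)), hA2, hA3⟩
      · right
        have hvB : v ∉ B := fun h => by
          have := hB1 h
          rw [hM, mem_filter, mem_erase] at this
          exact this.1.1 rfl
        have hBv : ∀ x ∈ B, ¬ R v x := fun x hx => (mem_filter.mp (hB1 hx)).2
        refine ⟨insert v B, ?_, ?_, ?_⟩
        · rw [insert_subset_iff]
          exact ⟨hv, hB1.trans ((filter_subset _ _).trans (erase_subset _ _))⟩
        · rw [card_insert_of_notMem hvB]; omega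
        · intro x hx y hy hxy
          rw [mem_insert] at hx hy
          rcases hx with rfl | hx <;> rcases hy with rfl | hy
          · exact absurd rfl hxy
          · exact hBv y hy
          · exact fun h => hBv x hx (hR h)
          · exact hB3 x hx y hy hxy
    · rcases ih (a - 1) b (by omega) N h with ⟨A, hA1, hA2, hA3⟩ | ⟨B, hB1, hB2, hB3⟩
      · left
        have hvA : v ∉ A := fun h => by
          have := hA1 h
          rw [hN, mem_filter, mem_erase] at this
          exact this.1.1 rfl
        have hAv : ∀ x ∈ A, R v x := fun x hx => (mem_filter.mp (hA1 hx)).2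
        refine ⟨insert v A, ?_, ?_, ?_⟩
        · rw [insert_subset_iff]
          exact ⟨hv, hA1.trans ((filter_subset _ _).trans (erase_subset _ _))⟩
        · rw [card_insert_of_notMem hvA]; omega
        · intro x hx y hy hxy
          rw [mem_insert] at hx hy
          rcases hx with rfl | hx <;> rcases hy with rfl | hy
          · exact absurd rfl hxy
          · exact hAv y hy
          · exact hR (hAv x hx)
          · exact hA3 x hx y hy hxy
      · right
        exact ⟨B, hB1.trans ((filter_subset _ _).trans (erase_subset _ _)), hB2, hB3⟩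

/-- `Z` induces a disjoint union of at least two complete graphs -/
def Clus {V : Type} (R : V → V → Prop) (Z : Finset V) : Prop :=
  (∀ a ∈ Z, ∀ b ∈ Z, ∀ c ∈ Z, a ≠ c → R a b → R b c → R a c) ∧
    ∃ a ∈ Z, ∃ b ∈ Z, a ≠ b ∧ ¬ R a b

open Classical in
theorem free_of_cover {V : Type} [DecidableEq V] (R : V → V → Prop)
    (hR : ∀ ⦃a b⦄, R a b → R b a) (hirr : ∀ a, ¬ R a a) (F : Finset (Finset V))
    (k j q : ℕ) (hj : 1 ≤ j) (hk : k ≤ (q + 1) * j)
    (hcov : ∀ Y : Finset V, Y.card = k → ∃ Z ∈ F, Z ⊆ Y)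
    (hF : ∀ Z ∈ F, Z.card = j + 1 ∧ ¬ Clus R Z) : Free R q (2 ^ (j + k)) := by
  intro φ hφ
  by_contra hcon
  push Not at hcon
  have hpart : ∀ i : Fin (q + 1), (univ.image fun x => φ (i, x)).card = 2 ^ (j + k) := by
    intro i
    rw [card_image_of_injective _ (fun x y h => (Prod.ext_iff.mp (hφ h)).2), card_univ,
      Fintype.card_fin]
  have hcl : ∀ i : Fin (q + 1), ∃ A ⊆ univ.image (fun x => φ (i, x)), A.card = j ∧
      ∀ x ∈ A, ∀ y ∈ A, x ≠ y → R x y := by
    intro i
    rcases ramsey R hR (j + k) j k rfl _ (hpart i).ge with h | ⟨B, _, hB2, hB3⟩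
    · exact h
    · exfalso
      obtain ⟨Z, hZF, hZB⟩ := hcov B hB2
      obtain ⟨hZc, hZ⟩ := hF Z hZF
      apply hZ
      have hno : ∀ a ∈ Z, ∀ b ∈ Z, ¬ R a b := by
        intro a ha b hb hab
        have hne : a ≠ b := fun h => hirr a (by rwa [← h] at hab)
        exact hB3 a (hZB ha) b (hZB hb) hne hab
      refine ⟨fun a ha b hb c _ _ hab => absurd hab (hno a ha b hb), ?_⟩
      obtain ⟨a, ha, b, hb, hab⟩ := Finset.one_lt_card.mp (by omega : 1 < Z.card)
      exact ⟨a, ha, b, hb, hab, hno a ha b hb⟩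
  choose A hA1 hA2 hA3 using hcl
  have hcross : ∀ i i' x y, x ∈ A i → y ∈ A i' → i ≠ i' → ¬ R x y := by
    intro i i' x y hx hy hii
    obtain ⟨u, _, rfl⟩ := mem_image.mp (hA1 i hx)
    obtain ⟨w, _, rfl⟩ := mem_image.mp (hA1 i' hy)
    exact hcon (i, u) (i', w) hii
  have hdisj : ∀ i ∈ (univ : Finset (Fin (q + 1))), ∀ i' ∈ (univ : Finset (Fin (q + 1))),
      i ≠ i' → Disjoint (A i) (A i') := by
    intro i _ i' _ hii
    rw [Finset.disjoint_left]
    intro x hx hx'
    obtain ⟨u, _, hu⟩ := mem_image.mp (hA1 i hx)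
    obtain ⟨w, _, hw⟩ := mem_image.mp (hA1 i' hx')
    have := hφ (hu.trans hw.symm)
    exact hii (Prod.ext_iff.mp this).1
  have hW : (univ.biUnion A).card = (q + 1) * j := by
    rw [Finset.card_biUnion hdisj, Finset.sum_congr rfl fun i _ => hA2 i, sum_const, card_univ,
      Fintype.card_fin, smul_eq_mul]
  obtain ⟨Y, hYW, hY⟩ := Finset.exists_subset_card_eq (s := univ.biUnion A) (n := k) (by omega)
  obtain ⟨Z, hZF, hZY⟩ := hcov Y hY
  obtain ⟨hZc, hZ⟩ := hF Z hZF
  apply hZ
  have hidx : ∀ z ∈ Z, ∃ i, z ∈ A i := by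
    intro z hz
    obtain ⟨i, _, hi⟩ := mem_biUnion.mp (hYW (hZY hz))
    exact ⟨i, hi⟩
  constructor
  · intro a ha b hb c hc hac hab hbc
    obtain ⟨ia, hia⟩ := hidx a ha
    obtain ⟨ib, hib⟩ := hidx b hb
    obtain ⟨ic, hic⟩ := hidx c hc
    have h1 : ia = ib := by
      by_contra h
      exact hcross ia ib a b hia hib h hab
    have h2 : ib = ic := by
      by_contra h
      exact hcross ib ic b c hib hic h hbc
    subst h1; subst h2
    exact hA3 ia a hia c hic hac
  · by_contra hall
    push Not at hall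
    have hZne : Z.Nonempty := by rw [← card_pos]; omega
    obtain ⟨z0, hz0⟩ := hZne
    obtain ⟨i0, hi0⟩ := hidx z0 hz0
    have hsub : Z ⊆ A i0 := by
      intro z hz
      by_cases hzz : z0 = z
      · rw [← hzz]; exact hi0
      · obtain ⟨i, hi⟩ := hidx z hz
        have h1 : i0 = i := by
          by_contra h
          exact hcross i0 i z0 z hi0 hi h (hall z0 hz0 z hz hzz)
        rw [h1]; exact hi
    have := card_le_card hsub
    rw [hA2 i0] at this
    omega

end Pool.Agent.H993.Tree
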