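import Pool.Agent.H993.Tree.Growth

/-! The lower bound with a small proportion of exceptional sets, by averaging. -/

set_option autoImplicit false
set_option linter.unusedSectionVars false

namespace Pool.Agent.H993.Tree

open Finset SimpleGraph

theorem contained_of_spans {V W : Type} [DecidableEq V] (G : SimpleGraph V) (j : ℕ)
    (S : SimpleGraph W) (p : ∀ j : ℕ, Fin (j + 1)) (e : Fin (j + 1) ≃ W)
    (he : ∀ (V : Type) (R : V → V → Prop), (∀ ⦃a b⦄, R a b → R b a) → ∀ z : Fin (j + 1) → V,
        IsHom R p j z → ∀ a b, S.Adj (e a) (e b) → R (z a) (z b))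
    (Z : Finset V) (h : Spans G.Adj p j Z) : S ⊑ G.induce (Z : Set V) := by
  obtain ⟨z, hz1, hz2, hz3⟩ := h
  have hmem : ∀ i, z i ∈ (Z : Set V) := by
    intro i
    rw [← hz2]
    exact mem_coe.mpr (mem_image_of_mem _ (mem_univ _))
  refine ⟨⟨⟨fun w => ⟨z (e.symm w), hmem _⟩, ?_⟩, ?_⟩⟩
  · intro a b hab
    have := he V G.Adj (fun a b h => h.symm) z hz3 (e.symm a) (e.symm b) (by simpa using hab)
    exact this
  · intro a b hab
    have h1 : z (e.symm a) = z (e.symm b) := congrArg Subtype.val hab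
    exact e.symm.injective (hz1 h1)

theorem card_supersets (n m t : ℕ) (Z : Finset (Fin n)) (hZ : Z.card = t) :
    (((powersetCard m (univ : Finset (Fin n))).filter fun W => Z ⊆ W).card) =
      if t ≤ m then (n - t).choose (m - t) else 0 := by
  classical
  split_ifs with htm
  · have h1 : (powersetCard (m - t) (univ \ Z)).card = (n - t).choose (m - t) := by
      rw [card_powersetCard, card_sdiff_of_subset (subset_univ _), card_univ, Fintype.card_fin, hZ]
    rw [← h1]
    refine Finset.card_nbij' (fun W => W \ Z) (fun U => U ∪ Z) ?_ ?_ ?_ ?_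
    · intro W hW
      simp only [coe_filter, mem_powersetCard, Set.mem_ofPred_eq] at hW
      simp only [mem_coe, mem_powersetCard]
      refine ⟨sdiff_subset_sdiff (subset_univ _) (subset_refl _), ?_⟩
      rw [card_sdiff_of_subset hW.2, hW.1.2, hZ]
    · intro U hU
      simp only [mem_coe, mem_powersetCard] at hU
      simp only [coe_filter, mem_powersetCard, Set.mem_ofPred_eq]
      refine ⟨⟨subset_univ _, ?_⟩, subset_union_right⟩
      have hd : Disjoint U Z := by
        rw [Finset.disjoint_left]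
        intro x hx hxZ
        exact (mem_sdiff.mp (hU.1 hx)).2 hxZ
      rw [card_union_of_disjoint hd, hU.2, hZ]
      omega
    · intro W hW
      simp only [coe_filter, mem_powersetCard, Set.mem_ofPred_eq] at hW
      exact sdiff_union_of_subset hW.2
    · intro U hU
      simp only [mem_coe, mem_powersetCard] at hU
      have hd : Disjoint U Z := by
        rw [Finset.disjoint_left]
        intro x hx hxZ
        exact (mem_sdiff.mp (hU.1 hx)).2 hxZ
      exact union_sdiff_cancel_right hd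
  · rw [card_eq_zero, filter_eq_empty_iff]
    intro W hW hZW
    rw [mem_powersetCard] at hW
    have := card_le_card hZW
    omega

open Classical in
theorem robust (k j q : ℕ) (hj : 1 ≤ j) (hq : 1 ≤ q) (hk : k ≤ (q + 1) * j)
    (S : SimpleGraph (Fin (j + 1))) (hS : S.IsTree) (ε : ℝ) (hε : 0 < ε) :
    ∃ δ : ℝ, 0 < δ ∧ ∃ n₀ : ℕ, ∀ n : ℕ, n₀ ≤ n → ∀ (G : SimpleGraph (Fin n))
      (F E : Finset (Finset (Fin n))), (∀ Z ∈ F, Z.card = j + 1) →
      (∀ Y : Finset (Fin n), Y.card = k → ∃ Z ∈ F, Z ⊆ Y) →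
      (∀ Z ∈ E, Z.card = j + 1) →
      (∀ Z ∈ F, Clus G.Adj Z → Z ∈ E) →
      (∀ Z : Finset (Fin n), Z.card = j + 1 → S ⊑ G.induce (Z : Set (Fin n)) → Z ∉ F → Z ∈ E) →
      (E.card : ℝ) ≤ δ * (n.choose (j + 1) : ℝ) →
      (1 / (q : ℝ) ^ j - ε) * (n.choose (j + 1) : ℝ) ≤ F.card := by
  obtain ⟨p, e, he⟩ := exists_growth j (Fin (j + 1)) S hS (Fintype.card_fin _)
  obtain ⟨n₀, hn₀⟩ := base k j q hj hq hk p (ε / 2) (by linarith)
  set m := max n₀ (j + 1) with hm
  have hmt : j + 1 ≤ m := le_max_right _ _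
  have hCm : (0 : ℝ) < (m.choose (j + 1) : ℝ) := by exact_mod_cast Nat.choose_pos hmt
  refine ⟨ε / 2 / (m.choose (j + 1) : ℝ), by positivity, m, ?_⟩
  intro n hn G F E hFc hcov hEc hE1 hE2 hEcard
  set c := 1 / (q : ℝ) ^ j - ε / 2 with hc
  rcases lt_or_ge c 0 with hc0 | hc0
  · have : (1 / (q : ℝ) ^ j - ε) ≤ 0 := by linarith
    exact le_trans (mul_nonpos_of_nonpos_of_nonneg this (Nat.cast_nonneg _)) (Nat.cast_nonneg _)
  -- good sets
  have good : ∀ W ∈ powersetCard m (univ : Finset (Fin n)), (∀ Z ∈ E, ¬ Z ⊆ W) →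
      c * (m.choose (j + 1) : ℝ) ≤ ((F.filter fun Z => Z ⊆ W).card : ℝ) := by
    intro W hW hgood
    rw [mem_powersetCard] at hW
    let ι : W ↪ Fin n := Function.Embedding.subtype _
    let F' : Finset (Finset W) := univ.filter fun Z' => Z'.map ι ∈ F
    have hcW : Fintype.card W = m := by rw [Fintype.card_coe, hW.2]
    have hmapW : ∀ Z' : Finset W, Z'.map ι ⊆ W := by
      intro Z' x hx
      rw [mem_map] at hx
      obtain ⟨y, _, rfl⟩ := hx
      exact y.2
    have h := hn₀ W (fun a b => G.Adj a b) (fun a b h => h.symm) (fun a => G.irrefl)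
      (by rw [hcW]; exact le_max_left _ _) F' ?_ ?_ ?_
    · rw [hcW] at h
      refine h.trans ?_
      have h2 : F'.card ≤ (F.filter fun Z => Z ⊆ W).card := by
        refine Finset.card_le_card_of_injOn (fun Z' => Z'.map ι) ?_ ?_
        · intro Z' hZ'
          rw [mem_coe, mem_filter] at hZ'
          rw [mem_coe, mem_filter]
          exact ⟨hZ'.2, hmapW Z'⟩
        · intro A _ B _ hAB
          exact Finset.map_injective ι hAB
      exact_mod_cast h2
    · intro Y' hY'
      obtain ⟨Z, hZF, hZY⟩ := hcov (Y'.map ι) (by rw [card_map, hY'])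
      refine ⟨Z.subtype (· ∈ W), ?_, ?_⟩
      · rw [mem_filter]
        refine ⟨mem_univ _, ?_⟩
        have h1 : (Z.subtype (· ∈ W)).map ι = Z := by
          rw [Finset.subtype_map]
          rw [filter_eq_self]
          intro x hx
          exact hmapW Y' (hZY hx)
        rw [h1]; exact hZF
      · intro x hx
        rw [mem_subtype] at hx
        have := hZY hx
        rw [mem_map] at this
        obtain ⟨y, hy, hyx⟩ := this
        have : y = x := Subtype.ext hyx
        rwa [← this]
    · intro Z' hZ'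
      rw [mem_filter] at hZ'
      have hcard := hFc _ hZ'.2
      refine ⟨by rw [← hcard, card_map], ?_⟩
      intro hclus
      refine hgood _ (hE1 _ hZ'.2 ?_) (hmapW Z')
      constructor
      · intro a ha b hb c hc hac hab hbc
        rw [mem_map] at ha hb hc
        obtain ⟨a', ha', rfl⟩ := ha
        obtain ⟨b', hb', rfl⟩ := hb
        obtain ⟨c', hc', rfl⟩ := hc
        exact hclus.1 a' ha' b' hb' c' hc' (fun h => hac (by rw [h])) hab hbc
      · obtain ⟨a', ha', b', hb', hab, hnab⟩ := hclus.2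
        exact ⟨ι a', mem_map_of_mem ι ha', ι b', mem_map_of_mem ι hb',
          fun h => hab (ι.injective h), hnab⟩
    · intro Z' hZ'
      rw [mem_filter]
      refine ⟨mem_univ _, ?_⟩
      obtain ⟨z, hz1, hz2, hz3⟩ := hZ'
      have hcard : (Z'.map ι).card = j + 1 := by
        rw [card_map, ← hz2, card_image_of_injective _ hz1, card_univ, Fintype.card_fin]
      have hsp : S ⊑ G.induce ((Z'.map ι : Finset (Fin n)) : Set (Fin n)) := by
        have hmem : ∀ i, (z i : Fin n) ∈ ((Z'.map ι : Finset (Fin n)) : Set (Fin n)) := by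
          intro i
          rw [mem_coe, mem_map]
          exact ⟨z i, by rw [← hz2]; exact mem_image_of_mem _ (mem_univ _), rfl⟩
        refine ⟨⟨⟨fun w => ⟨z (e.symm w), hmem _⟩, ?_⟩, ?_⟩⟩
        · intro a b hab
          exact he W (fun a b => G.Adj a b) (fun a b h => h.symm) z hz3 (e.symm a) (e.symm b)
            (by simpa using hab)
        · intro a b hab
          have h1 : (z (e.symm a) : Fin n) = z (e.symm b) := congrArg
            (fun x : ((Z'.map ι : Finset (Fin n)) : Set (Fin n)) => (x : Fin n)) hab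
          exact e.symm.injective (hz1 (Subtype.ext h1))
      by_contra hcon
      exact hgood _ (hE2 _ hcard hsp hcon) (hmapW Z')
  -- double counting
  set D := (n - (j + 1)).choose (m - (j + 1)) with hD
  have hDpos : (0 : ℝ) < (D : ℝ) := by exact_mod_cast Nat.choose_pos (by omega)
  have hsup : ∀ Z : Finset (Fin n), Z.card = j + 1 →
      ((powersetCard m (univ : Finset (Fin n))).filter fun W => Z ⊆ W).card = D := by
    intro Z hZ
    rw [card_supersets n m (j + 1) Z hZ, if_pos hmt]
  have hsumF : ∑ W ∈ powersetCard m (univ : Finset (Fin n)), (F.filter fun Z => Z ⊆ W).card =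
      F.card * D := by
    have h1 := Finset.sum_card_bipartiteAbove_eq_sum_card_bipartiteBelow
      (s := F) (t := powersetCard m (univ : Finset (Fin n))) (fun Z W => Z ⊆ W)
    unfold Finset.bipartiteAbove Finset.bipartiteBelow at h1
    rw [← h1, Finset.sum_congr rfl fun Z hZ => hsup Z (hFc Z hZ), Finset.sum_const, smul_eq_mul]
  set B := (powersetCard m (univ : Finset (Fin n))).filter fun W => ∃ Z ∈ E, Z ⊆ W with hB
  have hBcard : B.card ≤ E.card * D := by
    have h1 : B ⊆ E.biUnion fun Z => (powersetCard m (univ : Finset (Fin n))).filter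
        fun W => Z ⊆ W := by
      intro W hW
      rw [hB, mem_filter] at hW
      obtain ⟨hW1, Z, hZ, hZW⟩ := hW
      rw [mem_biUnion]
      exact ⟨Z, hZ, mem_filter.mpr ⟨hW1, hZW⟩⟩
    refine (card_le_card h1).trans ?_
    refine Finset.card_biUnion_le_card_mul _ _ _ fun Z hZ => ?_
    rw [hsup Z (hEc Z hZ)]
  have hgoodcard : (n.choose m : ℝ) - E.card * D ≤
      (((powersetCard m (univ : Finset (Fin n))).filter fun W => ¬ ∃ Z ∈ E, Z ⊆ W).card : ℝ) := by
    have h1 := Finset.card_filter_add_card_filter_not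
      (s := powersetCard m (univ : Finset (Fin n))) (fun W => ∃ Z ∈ E, Z ⊆ W)
    rw [card_powersetCard, card_univ, Fintype.card_fin] at h1
    have h2 : (B.card : ℝ) ≤ E.card * D := by exact_mod_cast hBcard
    have h3 : (B.card : ℝ) + (((powersetCard m (univ : Finset (Fin n))).filter
        fun W => ¬ ∃ Z ∈ E, Z ⊆ W).card : ℝ) = (n.choose m : ℝ) := by exact_mod_cast h1
    linarith
  have hlow : ((n.choose m : ℝ) - E.card * D) * (c * (m.choose (j + 1) : ℝ)) ≤ F.card * D := by
    have h1 : (F.card : ℝ) * D = ∑ W ∈ powersetCard m (univ : Finset (Fin n)),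
        ((F.filter fun Z => Z ⊆ W).card : ℝ) := by exact_mod_cast hsumF.symm
    rw [h1]
    have h2 : ∑ W ∈ (powersetCard m (univ : Finset (Fin n))).filter (fun W => ¬ ∃ Z ∈ E, Z ⊆ W),
        ((F.filter fun Z => Z ⊆ W).card : ℝ) ≤
        ∑ W ∈ powersetCard m (univ : Finset (Fin n)), ((F.filter fun Z => Z ⊆ W).card : ℝ) :=
      Finset.sum_le_sum_of_subset_of_nonneg (filter_subset _ _) fun _ _ _ => Nat.cast_nonneg _
    refine le_trans ?_ h2
    have h3 : ∀ W ∈ (powersetCard m (univ : Finset (Fin n))).filter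
        (fun W => ¬ ∃ Z ∈ E, Z ⊆ W), c * (m.choose (j + 1) : ℝ) ≤
        ((F.filter fun Z => Z ⊆ W).card : ℝ) := by
      intro W hW
      rw [mem_filter] at hW
      refine good W hW.1 fun Z hZ hZW => hW.2 ⟨Z, hZ, hZW⟩
    have h4 := Finset.card_nsmul_le_sum _ _ _ h3
    rw [nsmul_eq_mul] at h4
    refine le_trans ?_ h4
    exact mul_le_mul_of_nonneg_right hgoodcard (mul_nonneg hc0 hCm.le)
  have hid : (n.choose m : ℝ) * (m.choose (j + 1) : ℝ) = (n.choose (j + 1) : ℝ) * D := by
    exact_mod_cast Nat.choose_mul hmt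
  have hlow2 : (c * ((n.choose (j + 1) : ℝ) - E.card * (m.choose (j + 1) : ℝ))) * D ≤
      F.card * D := by
    refine le_trans (le_of_eq ?_) hlow
    calc (c * ((n.choose (j + 1) : ℝ) - E.card * (m.choose (j + 1) : ℝ))) * D
        = c * ((n.choose (j + 1) : ℝ) * D - E.card * (m.choose (j + 1) : ℝ) * D) := by ring
      _ = c * ((n.choose m : ℝ) * (m.choose (j + 1) : ℝ) -
            E.card * (m.choose (j + 1) : ℝ) * D) := by rw [hid]
      _ = _ := by ring
  have hlow3 := le_of_mul_le_mul_right hlow2 hDpos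
  refine le_trans ?_ hlow3
  have hE3 : (E.card : ℝ) * (m.choose (j + 1) : ℝ) ≤ ε / 2 * (n.choose (j + 1) : ℝ) := by
    have h1 := mul_le_mul_of_nonneg_right hEcard hCm.le
    refine h1.trans (le_of_eq ?_)
    field_simp
  have hc1 : c ≤ 1 := by
    have h1 : (1 : ℝ) ≤ (q : ℝ) ^ j := one_le_pow₀ (by exact_mod_cast hq)
    have h2 : 1 / (q : ℝ) ^ j ≤ 1 := by
      rw [div_le_one (by linarith)]; exact h1
    linarith
  have hCn : (0 : ℝ) ≤ (n.choose (j + 1) : ℝ) := Nat.cast_nonneg _
  have h5 : c * (ε / 2 * (n.choose (j + 1) : ℝ)) ≤ ε / 2 * (n.choose (j + 1) : ℝ) := by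
    have : 0 ≤ ε / 2 * (n.choose (j + 1) : ℝ) := by positivity
    nlinarith
  have h6 : c * ((E.card : ℝ) * (m.choose (j + 1) : ℝ)) ≤
      c * (ε / 2 * (n.choose (j + 1) : ℝ)) := mul_le_mul_of_nonneg_left hE3 hc0
  have h7 : 1 / (q : ℝ) ^ j - ε = c - ε / 2 := by rw [hc]; ring
  rw [h7]
  nlinarith

end Pool.Agent.H993.Tree
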