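import Pool.Agent.H993.Tree.Sharp

/-!
# The Turán densities of all complete `r`-graphs in a class of hypergraphs that follow a graph

Let `S` be a tree on `r` vertices and `G` a graph on the vertices of an `r`-graph `H`. A set `Z` of
`r` vertices fits if
(a) `Z` is not an edge of `H` in case the subgraph of `G` induced on `Z` contains a copy of `S`,
(b) `Z` is an edge of `H` in case `G` induces on `Z` a disjoint union of at least two complete graphs
(for instance if `Z` is independent). For all the other sets `Z` there is no condition.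

For all `m > r ≥ 2` the largest density of a `K_m^r`-free `r`-graph for which some graph exists such
that almost all `r`-sets fit is `1 - 1 / q ^ (r - 1)`, `q = ⌊(m - 1) / (r - 1)⌋`, for every tree `S`
(star: some vertex of `Z` is adjacent to all the others; path: `Z` has a Hamiltonian path).
-/

set_option autoImplicit false

open Finset SimpleGraph

namespace Pool.Agent.H993.Tree.Rules

/-- The hypergraph `H` contains no complete `r`-graph on `m` vertices: every set of `m` vertices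
contains a set of `r` vertices that is not an edge. -/
def CliqueFree {n : ℕ} (m r : ℕ) (H : Finset (Finset (Fin n))) : Prop :=
  ∀ Y : Finset (Fin n), Y.card = m → ∃ Z ⊆ Y, Z.card = r ∧ Z ∉ H

/-- `G` induces on `Z` a disjoint union of at least two complete graphs: adjacency is transitive on
`Z`, and some two elements of `Z` are not adjacent -/
def Cluster {n : ℕ} (G : SimpleGraph (Fin n)) (Z : Finset (Fin n)) : Prop :=
  (∀ x ∈ Z, ∀ y ∈ Z, ∀ z ∈ Z, G.Adj x y → G.Adj y z → x ≠ z → G.Adj x z) ∧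
    ∃ x ∈ Z, ∃ y ∈ Z, x ≠ y ∧ ¬ G.Adj x y

/-- `Z` fits: if the subgraph induced on `Z` contains a copy of `S`, then `Z` is not an edge of `H`;
if it is a disjoint union of at least two complete graphs, then `Z` is an edge of `H` -/
def Fits {n r : ℕ} (S : SimpleGraph (Fin r)) (G : SimpleGraph (Fin n)) (H : Finset (Finset (Fin n)))
    (Z : Finset (Fin n)) : Prop :=
  (S.IsContained (G.induce (Z : Set (Fin n))) → Z ∉ H) ∧ (Cluster G Z → Z ∈ H)

/-- the number `⌊(m-1)/(r-1)⌋` -/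
def quot (m r : ℕ) : ℕ := (m - 1) / (r - 1)

open Classical in
theorem result (m r : ℕ) (hr : 2 ≤ r) (hm : r < m) :
    (∀ S : SimpleGraph (Fin r), S.IsTree → ∀ ε : ℝ, 0 < ε → ∃ δ : ℝ, 0 < δ ∧ ∃ n0 : ℕ,
      ∀ n : ℕ, n0 ≤ n → ∀ H : Finset (Finset (Fin n)), (∀ Z ∈ H, Z.card = r) →
        CliqueFree m r H →
        (∃ G : SimpleGraph (Fin n), ((((univ : Finset (Fin n)).powersetCard r).filter
          fun Z => ¬ Fits S G H Z).card : ℝ) ≤ δ * (n.choose r : ℝ)) →
        (H.card : ℝ) ≤ (1 - 1 / (quot m r : ℝ) ^ (r - 1) + ε) * (n.choose r : ℝ)) ∧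
    (∀ ε : ℝ, 0 < ε → ∃ n0 : ℕ, ∀ n : ℕ, n0 ≤ n → ∃ (H : Finset (Finset (Fin n)))
      (G : SimpleGraph (Fin n)), (∀ Z ∈ H, Z.card = r) ∧ CliqueFree m r H ∧
        (∀ S : SimpleGraph (Fin r), S.IsTree → ∀ Z : Finset (Fin n), Z.card = r → Fits S G H Z) ∧
        (1 - 1 / (quot m r : ℝ) ^ (r - 1) - ε) * (n.choose r : ℝ) ≤ (H.card : ℝ)) := by
  obtain ⟨j, rfl⟩ : ∃ j, r = j + 1 := ⟨r - 1, by omega⟩
  have hj : 1 ≤ j := by omega
  have hb : quot m (j + 1) = (m - 1) / j := by unfold quot; rw [Nat.add_sub_cancel]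
  have hq : 1 ≤ quot m (j + 1) := by
    rw [hb, Nat.one_le_div_iff (by omega)]
    omega
  have hk1 : quot m (j + 1) * j < m := by
    rw [hb]
    have := Nat.div_mul_le_self (m - 1) j
    omega
  have hk2 : m ≤ (quot m (j + 1) + 1) * j := by
    rw [hb]
    have := Nat.lt_div_mul_add (a := m - 1) (b := j) (by omega)
    rw [Nat.add_mul]
    omega
  have hcard : ∀ (n : ℕ) (H : Finset (Finset (Fin n))), (∀ Z ∈ H, Z.card = j + 1) →
      ((((univ : Finset (Fin n)).powersetCard (j + 1) \ H).card : ℕ) : ℝ) + (H.card : ℝ) =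
        (n.choose (j + 1) : ℝ) := by
    intro n H hH
    have hHsub : H ⊆ (univ : Finset (Fin n)).powersetCard (j + 1) := fun Z hZ =>
      mem_powersetCard.2 ⟨subset_univ _, hH Z hZ⟩
    have h1 := Finset.card_sdiff_add_card_eq_card hHsub
    rw [card_powersetCard, card_univ, Fintype.card_fin] at h1
    exact_mod_cast h1
  refine ⟨fun S hS ε hε => ?_, fun ε hε => ?_⟩
  · obtain ⟨δ, hδ, n₀, hn₀⟩ := robust m j (quot m (j + 1)) hj hq hk2 S hS ε hε
    refine ⟨δ, hδ, n₀, fun n hn H hH hfree ⟨G, hG⟩ => ?_⟩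
    set F : Finset (Finset (Fin n)) := (univ : Finset (Fin n)).powersetCard (j + 1) \ H with hF
    have hmemF : ∀ Z, Z ∈ F ↔ Z.card = j + 1 ∧ Z ∉ H := by
      intro Z
      rw [hF, mem_sdiff, mem_powersetCard]
      exact ⟨fun h => ⟨h.1.2, h.2⟩, fun h => ⟨⟨subset_univ _, h.1⟩, h.2⟩⟩
    have h1 := hn₀ n hn G F (((univ : Finset (Fin n)).powersetCard (j + 1)).filter
      fun Z => ¬ Fits S G H Z) (fun Z hZ => ((hmemF Z).1 hZ).1) (fun Y hY => by
        obtain ⟨Z, hZY, hZc, hZH⟩ := hfree Y hY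
        exact ⟨Z, (hmemF Z).2 ⟨hZc, hZH⟩, hZY⟩)
      (fun Z hZ => (mem_powersetCard.1 (mem_filter.1 hZ).1).2)
      (fun Z hZ hcl => mem_filter.2 ⟨mem_powersetCard.2 ⟨subset_univ _, ((hmemF Z).1 hZ).1⟩,
        fun hfit => ((hmemF Z).1 hZ).2 (hfit.2
          ⟨fun a ha b hb' c hc h1 h2 h3 => hcl.1 a ha b hb' c hc h3 h1 h2, hcl.2⟩)⟩)
      (fun Z hZc hSZ hZ => mem_filter.2 ⟨mem_powersetCard.2 ⟨subset_univ _, hZc⟩,
        fun hfit => hZ ((hmemF Z).2 ⟨hZc, hfit.1 hSZ⟩)⟩) hG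
    have h2 := hcard n H hH
    rw [← hF] at h2
    rw [Nat.add_sub_cancel]
    linarith
  · obtain ⟨n₀, hn₀⟩ := sharp m j (quot m (j + 1)) hq hk1 ε hε
    refine ⟨n₀, fun n hn => ?_⟩
    obtain ⟨G, F, h1, h2, h3, h4⟩ := hn₀ n hn
    set H : Finset (Finset (Fin n)) := (univ : Finset (Fin n)).powersetCard (j + 1) \ F with hH
    have hmemH : ∀ Z, Z ∈ H ↔ Z.card = j + 1 ∧ Z ∉ F := by
      intro Z
      rw [hH, mem_sdiff, mem_powersetCard]
      exact ⟨fun h => ⟨h.1.2, h.2⟩, fun h => ⟨⟨subset_univ _, h.1⟩, h.2⟩⟩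
    refine ⟨H, G, fun Z hZ => ((hmemH Z).1 hZ).1, fun Y hY => ?_, fun S hS Z hZ => ?_, ?_⟩
    · obtain ⟨Z, hZF, hZY⟩ := h1 Y hY
      exact ⟨Z, hZY, ((h2 Z).1 hZF).1, fun h => ((hmemH Z).1 h).2 hZF⟩
    · constructor
      · rintro ⟨f⟩ hZH
        apply ((hmemH Z).1 hZH).2
        rw [h2]
        refine ⟨hZ, ?_⟩
        have hbij : Function.Bijective f := by
          rw [Fintype.bijective_iff_injective_and_card]
          refine ⟨f.injective, ?_⟩
          rw [Fintype.card_fin]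
          simp [hZ]
        have hne : Nonempty ((Z : Set (Fin n)) : Type) := ⟨f 0⟩
        exact ⟨hS.connected.preconnected.map f.toHom hbij.2⟩
      · rintro ⟨_, a, ha, b, hb', hab, hnab⟩
        refine (hmemH Z).2 ⟨hZ, fun hZF => hnab (((h3 Z).1 hZF).2 ha hb' hab)⟩
    · have h5 : (((univ : Finset (Fin n)).powersetCard (j + 1) \ F).card : ℝ) + (F.card : ℝ) =
          (n.choose (j + 1) : ℝ) := hcard n F (fun Z hZ => ((h2 Z).1 hZ).1)
      rw [← hH] at h5
      rw [Nat.add_sub_cancel]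
      linarith

end Pool.Agent.H993.Tree.Rules
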