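import Pool.Agent.H993.Tree.Robust

/-! Sharpness: disjoint complete graphs of nearly equal sizes. -/

set_option autoImplicit false
set_option linter.unusedSectionVars false

namespace Pool.Agent.H993.Tree

open Finset SimpleGraph

/-- connectedness of the finite set `Z` by cuts -/
def IsConn {V : Type} [DecidableEq V] (R : V → V → Prop) (Z : Finset V) : Prop :=
  ∀ A ⊆ Z, A.Nonempty → A ≠ Z → ∃ a ∈ A, ∃ b ∈ Z \ A, R a b

theorem isConn_of_connected {V : Type} [DecidableEq V] (G : SimpleGraph V) (Z : Finset V)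
    (h : (G.induce (Z : Set V)).Connected) : IsConn G.Adj Z := by
  intro A hA hne hAZ
  obtain ⟨a, ha⟩ := hne
  obtain ⟨b, hb, hbA⟩ := Finset.exists_of_ssubset (Finset.ssubset_iff_subset_ne.mpr ⟨hA, hAZ⟩)
  have haZ : a ∈ (Z : Set V) := hA ha
  have hbZ : b ∈ (Z : Set V) := hb
  obtain ⟨w⟩ := h.preconnected ⟨a, haZ⟩ ⟨b, hbZ⟩
  obtain ⟨d, _, hd1, hd2⟩ := w.exists_boundary_dart {x | (x : V) ∈ A} ha hbA
  exact ⟨d.fst, hd1, d.snd, mem_sdiff.mpr ⟨d.snd.2, hd2⟩, d.adj⟩

/-- residue classes -/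
def cl (r : ℕ) [NeZero r] {n : ℕ} (v : Fin n) : Fin r := Fin.ofNat r v

theorem cl_eq_iff (r : ℕ) [NeZero r] {n : ℕ} (v : Fin n) (i : Fin r) :
    cl r v = i ↔ (v : ℕ) % r = i := by
  unfold cl
  rw [Fin.ext_iff]
  rfl

theorem card_cl_le (r : ℕ) [NeZero r] (n : ℕ) (i : Fin r) :
    (univ.filter fun v : Fin n => cl r v = i).card ≤ n / r + 1 := by
  have h : (univ.filter fun v : Fin n => cl r v = i).card ≤ (range (n / r + 1)).card := by
    refine Finset.card_le_card_of_injOn (fun v => (v : ℕ) / r) ?_ ?_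
    · intro v _
      rw [mem_coe, mem_range]
      have : (v : ℕ) / r ≤ n / r := Nat.div_le_div_right v.2.le
      exact Nat.lt_succ_of_le this
    · intro v hv w hw hvw
      rw [mem_coe, mem_filter, cl_eq_iff] at hv hw
      apply Fin.ext
      have h1 := Nat.div_add_mod (v : ℕ) r
      have h2 := Nat.div_add_mod (w : ℕ) r
      simp only at hvw
      rw [hv.2] at h1
      rw [hw.2, ← hvw] at h2
      omega
  rwa [card_range] at h

theorem card_cl_ge (r : ℕ) [NeZero r] (n : ℕ) (i : Fin r) :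
    n / r ≤ (univ.filter fun v : Fin n => cl r v = i).card := by
  have hr : 0 < r := Nat.pos_of_ne_zero (NeZero.ne r)
  have hlt : ∀ a < n / r, r * a + i < n := by
    intro a ha
    have h1 : r * (a + 1) ≤ r * (n / r) := Nat.mul_le_mul_left _ ha
    have h2 := Nat.mul_div_le n r
    have h3 := i.2
    rw [Nat.mul_add] at h1
    omega
  have h : Fintype.card (Fin (n / r)) ≤ (univ.filter fun v : Fin n => cl r v = i).card := by
    rw [← Finset.card_univ]
    refine Finset.card_le_card_of_injOn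
      (fun a => (⟨r * a + i, hlt a a.2⟩ : Fin n)) ?_ ?_
    · intro a _
      rw [mem_coe, mem_filter, cl_eq_iff]
      refine ⟨mem_univ _, ?_⟩
      simp only
      rw [Nat.mul_add_mod]
      exact Nat.mod_eq_of_lt i.2
    · intro a _ b _ hab
      have h1 : r * (a : ℕ) + i = r * b + i := congrArg Fin.val hab
      apply Fin.ext
      exact Nat.eq_of_mul_eq_mul_left hr (by omega)
  rwa [Fintype.card_fin] at h

theorem connected_of_clique {n : ℕ} (G : SimpleGraph (Fin n)) (Z : Finset (Fin n))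
    (hne : Z.Nonempty) (h : G.IsClique (Z : Set (Fin n))) :
    (G.induce (Z : Set (Fin n))).Connected := by
  rw [← induce_eq_top] at h
  rw [h]
  have : Nonempty ((Z : Set (Fin n)) : Type) := by
    obtain ⟨z, hz⟩ := hne
    exact ⟨⟨z, hz⟩⟩
  exact connected_top

open Classical in
theorem sharp (k j q : ℕ) (hq : 1 ≤ q) (hk : q * j < k) (ε : ℝ) (hε : 0 < ε) :
    ∃ n₀ : ℕ, ∀ n : ℕ, n₀ ≤ n → ∃ (G : SimpleGraph (Fin n)) (F : Finset (Finset (Fin n))),
      (∀ Y : Finset (Fin n), Y.card = k → ∃ Z ∈ F, Z ⊆ Y) ∧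
      (∀ Z : Finset (Fin n), Z ∈ F ↔ Z.card = j + 1 ∧
        (G.induce (Z : Set (Fin n))).Connected) ∧
      (∀ Z : Finset (Fin n), Z ∈ F ↔ Z.card = j + 1 ∧ G.IsClique (Z : Set (Fin n))) ∧
      (F.card : ℝ) ≤ (1 / (q : ℝ) ^ j + ε) * (n.choose (j + 1) : ℝ) := by
  have : NeZero q := ⟨by omega⟩
  have hq0 : (0 : ℝ) < q := by exact_mod_cast hq
  have hT1 : Filter.Tendsto (fun n : ℕ => (q : ℝ) * (1 / q + 1 / (n : ℝ)) ^ (j + 1)) Filter.atTop
      (nhds ((q : ℝ) * (1 / q + 0) ^ (j + 1))) :=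
    (((tendsto_const_nhds.add (tendsto_const_div_atTop_nhds_zero_nat 1)).pow _).const_mul _)
  have hT2 : Filter.Tendsto (fun n : ℕ => (1 / (q : ℝ) ^ j + ε) * (1 - (j : ℝ) / n) ^ (j + 1))
      Filter.atTop (nhds ((1 / (q : ℝ) ^ j + ε) * (1 - 0) ^ (j + 1))) :=
    (((tendsto_const_nhds.sub (tendsto_const_div_atTop_nhds_zero_nat (j : ℝ))).pow _).const_mul _)
  have hlim : (q : ℝ) * (1 / q + 0) ^ (j + 1) < (1 / (q : ℝ) ^ j + ε) * (1 - 0) ^ (j + 1) := by
    have h1 : (q : ℝ) * (1 / q + 0) ^ (j + 1) = 1 / (q : ℝ) ^ j := by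
      rw [add_zero, one_div_pow, pow_succ]
      field_simp
    rw [h1, sub_zero, one_pow]
    linarith
  obtain ⟨n₀, hn₀⟩ := Filter.eventually_atTop.mp (hT1.eventually_lt hT2 hlim)
  refine ⟨n₀ + j + 1, fun n hn => ?_⟩
  have hfin := hn₀ n (by omega)
  let G : SimpleGraph (Fin n) :=
    { Adj := fun u v => u ≠ v ∧ cl q u = cl q v
      symm := ⟨fun u v h => ⟨h.1.symm, h.2.symm⟩⟩
      loopless := ⟨fun u h => h.1 rfl⟩ }
  let F : Finset (Finset (Fin n)) := univ.filter fun Z => Z.card = j + 1 ∧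
    G.IsClique (Z : Set (Fin n))
  have hclique : ∀ Z : Finset (Fin n), G.IsClique (Z : Set (Fin n)) ↔
      ∀ u ∈ Z, ∀ v ∈ Z, cl q u = cl q v := by
    intro Z
    constructor
    · intro h u hu v hv
      by_cases huv : u = v
      · rw [huv]
      · exact (h hu hv huv).2
    · intro h u hu v hv huv
      exact ⟨huv, h u hu v hv⟩
  have hiff : ∀ Z : Finset (Fin n), Z.card = j + 1 →
      ((G.induce (Z : Set (Fin n))).Connected ↔ G.IsClique (Z : Set (Fin n))) := by
    intro Z hZ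
    have hne : Z.Nonempty := by rw [← card_pos]; omega
    refine ⟨fun h => ?_, connected_of_clique G Z hne⟩
    have hc := isConn_of_connected G Z h
    rw [hclique]
    intro u hu v hv
    by_contra hne'
    obtain ⟨a, ha, b, hb, hab⟩ := hc (Z.filter fun x => cl q x = cl q u) (filter_subset _ _)
      ⟨u, mem_filter.mpr ⟨hu, rfl⟩⟩ (fun h => by
        have : v ∈ Z.filter fun x => cl q x = cl q u := by rw [h]; exact hv
        rw [mem_filter] at this
        exact hne' this.2.symm)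
    rw [mem_filter] at ha
    rw [mem_sdiff, mem_filter] at hb
    exact hb.2 ⟨hb.1, hab.2.symm.trans ha.2⟩
  refine ⟨G, F, ?_, ?_, ?_, ?_⟩
  · intro Y hY
    obtain ⟨i, _, hi⟩ := Finset.exists_lt_card_fiber_of_mul_lt_card_of_maps_to
      (s := Y) (t := (univ : Finset (Fin q))) (f := fun v => cl q v) (n := j)
      (fun a _ => mem_univ _) (by rw [card_univ, Fintype.card_fin, hY]; exact hk)
    obtain ⟨Z, hZ1, hZ2⟩ := Finset.exists_subset_card_eq (n := j + 1) hi
    refine ⟨Z, ?_, hZ1.trans (filter_subset _ _)⟩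
    rw [mem_filter]
    refine ⟨mem_univ _, hZ2, (hclique Z).mpr fun u hu v hv => ?_⟩
    have h1 := (mem_filter.mp (hZ1 hu)).2
    have h2 := (mem_filter.mp (hZ1 hv)).2
    exact h1.trans h2.symm
  · intro Z
    rw [mem_filter]
    constructor
    · rintro ⟨_, h1, h2⟩
      exact ⟨h1, (hiff Z h1).mpr h2⟩
    · rintro ⟨h1, h2⟩
      exact ⟨mem_univ _, h1, (hiff Z h1).mp h2⟩
  · intro Z
    rw [mem_filter]
    simp
  · have hn0 : (0 : ℝ) < n := by
      have : 0 < n := by omega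
      exact_mod_cast this
    have h1 : F ⊆ (univ : Finset (Fin q)).biUnion fun i =>
        powersetCard (j + 1) (univ.filter fun v : Fin n => cl q v = i) := by
      intro Z hZ
      rw [mem_filter] at hZ
      have hne : Z.Nonempty := by rw [← card_pos]; omega
      obtain ⟨z, hz⟩ := hne
      rw [mem_biUnion]
      refine ⟨cl q z, mem_univ _, ?_⟩
      rw [mem_powersetCard]
      refine ⟨fun x hx => ?_, hZ.2.1⟩
      rw [mem_filter]
      exact ⟨mem_univ _, (hclique Z).mp hZ.2.2 x hx z hz⟩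
    have h2 : (F.card : ℝ) ≤ ∑ i : Fin q,
        (((univ.filter fun v : Fin n => cl q v = i).card.choose (j + 1) : ℕ) : ℝ) := by
      have h3 := (card_le_card h1).trans Finset.card_biUnion_le
      simp only [card_powersetCard] at h3
      exact_mod_cast h3
    have h3 : ∀ i : Fin q, (((univ.filter fun v : Fin n => cl q v = i).card.choose (j + 1) : ℕ) : ℝ)
        ≤ (n * (1 / q + 1 / (n : ℝ))) ^ (j + 1) / ((j + 1).factorial : ℝ) := by
      intro i
      refine (Nat.choose_le_pow_div (j + 1) _).trans ?_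
      have h4 : (((univ.filter fun v : Fin n => cl q v = i).card : ℕ) : ℝ) ≤
          n * (1 / q + 1 / (n : ℝ)) := by
        have h5 : (((univ.filter fun v : Fin n => cl q v = i).card : ℕ) : ℝ) ≤
            ((n / q : ℕ) : ℝ) + 1 := by exact_mod_cast card_cl_le q n i
        have h6 : ((n / q : ℕ) : ℝ) ≤ (n : ℝ) / q := Nat.cast_div_le
        have h7 : n * (1 / q + 1 / (n : ℝ)) = (n : ℝ) / q + 1 := by field_simp
        rw [h7]; linarith
      have h5 := pow_le_pow_left₀ (Nat.cast_nonneg _) h4 (j + 1)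
      gcongr
    have h4 : (F.card : ℝ) ≤ q * ((n * (1 / q + 1 / (n : ℝ))) ^ (j + 1) /
        ((j + 1).factorial : ℝ)) := by
      refine h2.trans ((Finset.sum_le_sum fun i _ => h3 i).trans (le_of_eq ?_))
      rw [sum_const, card_univ, Fintype.card_fin, nsmul_eq_mul]
    have h5 := Nat.pow_le_choose (α := ℝ) (j + 1) n
    have h6 : ((n + 1 - (j + 1) : ℕ) : ℝ) = n * (1 - j / n) := by
      have : n + 1 - (j + 1) = n - j := by omega
      rw [this, Nat.cast_sub (by omega)]
      field_simp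
    rw [h6] at h5
    have hcoef : (0 : ℝ) ≤ 1 / (q : ℝ) ^ j + ε := by positivity
    have h7 := mul_le_mul_of_nonneg_left h5 hcoef
    refine h4.trans (le_trans ?_ h7)
    have hfac : (0 : ℝ) < ((j + 1).factorial : ℝ) := by exact_mod_cast Nat.factorial_pos _
    rw [mul_pow, mul_pow, ← mul_div_assoc, ← mul_div_assoc]
    apply div_le_div_of_nonneg_right _ hfac.le
    have h8 : (n : ℝ) ^ (j + 1) * ((q : ℝ) * (1 / q + 1 / (n : ℝ)) ^ (j + 1)) ≤
        (n : ℝ) ^ (j + 1) * ((1 / (q : ℝ) ^ j + ε) * (1 - (j : ℝ) / n) ^ (j + 1)) :=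
      mul_le_mul_of_nonneg_left hfin.le (by positivity)
    calc (q : ℝ) * ((n : ℝ) ^ (j + 1) * (1 / q + 1 / (n : ℝ)) ^ (j + 1))
        = (n : ℝ) ^ (j + 1) * ((q : ℝ) * (1 / q + 1 / (n : ℝ)) ^ (j + 1)) := by ring
      _ ≤ _ := h8
      _ = _ := by ring

end Pool.Agent.H993.Tree
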